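import Mathlib
import Pool.Agent.Y268.D3.Stm
import Pool.Agent.H711R2.KG.K1b

/-!
Families of unitaries, the filter of good families, Dixmier means as limits.
-/

set_option autoImplicit false

open scoped ComplexOrder InnerProductSpace ComplexConjugate Topology
open Finset Filter

noncomputable section

namespace Pool.Agent.Y968.D3

open H759R2.Kad H711R2.KG Y268.D3

/-! ### Families -/

/-- Finite nonempty families of unitaries. -/
abbrev Fm (B : Type) [CStarAlgebra B] : Type := Σ k : ℕ, (Fin (k + 1) → unitary B)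

section fam

variable {B : Type} [CStarAlgebra B]

/-- The average over a family. -/
def av {V : Type} [AddCommGroup V] [Module ℂ V] (m : Fm B) (F : unitary B → V) : V :=
  fav (Fin (m.1 + 1)) (fun i => F (m.2 i))

theorem exists_mk (Ω : Type) [Fintype Ω] [Nonempty Ω] (g : Ω → unitary B) : ∃ m : Fm B,
    ∀ (V : Type) [AddCommGroup V] [Module ℂ V] (F : unitary B → V),
      av m F = fav Ω (fun s => F (g s)) := by
  obtain ⟨k, hk⟩ : ∃ k, Fintype.card Ω = k + 1 := Nat.exists_eq_succ_of_ne_zero Fintype.card_ne_zero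
  let e : Fin (k + 1) ≃ Ω := (Fintype.equivFinOfCardEq hk).symm
  refine ⟨⟨k, fun s => g (e s)⟩, fun V _ _ F => ?_⟩
  unfold av fav
  simp only
  rw [hk, Fintype.card_fin, Equiv.sum_comp e (fun s => F (g s))]

/-- The family of a finite nonempty type. -/
def mk (Ω : Type) [Fintype Ω] [Nonempty Ω] (g : Ω → unitary B) : Fm B := (exists_mk Ω g).choose

theorem av_mk (Ω : Type) [Fintype Ω] [Nonempty Ω] (g : Ω → unitary B)
    {V : Type} [AddCommGroup V] [Module ℂ V] (F : unitary B → V) :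
    av (mk Ω g) F = fav Ω (fun s => F (g s)) := (exists_mk Ω g).choose_spec V F

/-- Products. -/
def pr (m v : Fm B) : Fm B :=
  mk (Fin (m.1 + 1) × Fin (v.1 + 1)) (fun p => m.2 p.1 * v.2 p.2)

theorem av_pr (m v : Fm B) {V : Type} [AddCommGroup V] [Module ℂ V] (F : unitary B → V) :
    av (pr m v) F = av v (fun b => av m (fun a => F (a * b))) := by
  unfold pr
  rw [av_mk, F804.fav_prod']
  rfl

/-- Midpoints. -/
def md (m m' : Fm B) : Fm B :=
  mk (Bool × (Fin (m.1 + 1) × Fin (m'.1 + 1))) (fun p => if p.1 then m.2 p.2.1 else m'.2 p.2.2)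

theorem av_md (m m' : Fm B) {V : Type} [AddCommGroup V] [Module ℂ V] (F : unitary B → V) :
    av (md m m') F = (2 : ℂ)⁻¹ • (av m F + av m' F) := by
  unfold md
  rw [av_mk, F804.fav_prod]
  have h1 : fav (Fin (m.1 + 1) × Fin (m'.1 + 1)) (fun p => F (m.2 p.1)) = av m F := by
    rw [F804.fav_prod]
    unfold av
    congr 1
    funext s
    exact F804.fav_const (Fin (m'.1 + 1)) (F (m.2 s))
  have h2 : fav (Fin (m.1 + 1) × Fin (m'.1 + 1)) (fun p => F (m'.2 p.2)) = av m' F := by
    rw [F804.fav_prod']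
    unfold av
    congr 1
    funext s
    exact F804.fav_const (Fin (m.1 + 1)) (F (m'.2 s))
  rw [← h1, ← h2]
  conv_lhs => unfold fav
  rw [Fintype.card_bool, Fintype.sum_bool]
  simp only [if_true, Bool.false_eq_true, if_false, Nat.cast_ofNat]
  rfl

theorem av_const (m : Fm B) {V : Type} [AddCommGroup V] [Module ℂ V] (c : V) :
    av m (fun _ => c) = c := F804.fav_const _ _

theorem av_lin (m : Fm B) {V W : Type} [AddCommGroup V] [Module ℂ V] [AddCommGroup W] [Module ℂ W]
    (T : V →ₗ[ℂ] W) (F : unitary B → V) : av m (fun v => T (F v)) = T (av m F) := by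
  unfold av fav
  rw [map_smul, map_sum]

theorem av_add (m : Fm B) {V : Type} [AddCommGroup V] [Module ℂ V] (F G : unitary B → V) :
    av m (fun v => F v + G v) = av m F + av m G := F804.fav_add _ _ _

theorem av_smul (m : Fm B) {V : Type} [AddCommGroup V] [Module ℂ V] (c : ℂ) (F : unitary B → V) :
    av m (fun v => c • F v) = c • av m F := F804.fav_smul _ _ _

theorem norm_av_le {V : Type} [NormedAddCommGroup V] [NormedSpace ℂ V] (m : Fm B)
    (F : unitary B → V) (M : ℝ) (h : ∀ v, ‖F v‖ ≤ M) : ‖av m F‖ ≤ M :=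
  F804.norm_fav_le _ _ _ fun i => h (m.2 i)

/-- The mean of a family. -/
def mn (m : Fm B) : Mean (unitary B) := (Mean.fin (Fin (m.1 + 1))).map m.2

theorem mn_E (m : Fm B) (f : unitary B → ℂ) : (mn m).E f = av m f := by
  unfold mn
  rw [Mean.map_E, Mean.fin_E]
  rfl

/-- Interchange of a mean and an average. -/
theorem av_E {S : Type} (E : Mean S) (m : Fm B) (f : unitary B → S → ℂ) :
    av m (fun v => E.E (f v)) = E.E (fun s => av m (fun v => f v s)) := by
  rw [av_lin m E.E f]
  congr 1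
  funext s
  unfold av fav
  simp [Finset.sum_apply]

end fam

/-! ### Good families -/

section good

variable {B : Type} [CStarAlgebra B]

/-- Good families. -/
structure Good (τ : B →ₗ[ℂ] ℂ) (Y : Finset B) (ε : ℝ) (m : Fm B) : Prop where
  l : ∀ y ∈ Y, ‖av m (fun v => star (v : B) * y * (v : B)) - algebraMap ℂ B (τ y)‖ ≤ ε
  r : ∀ y ∈ Y, ‖av m (fun v => (v : B) * y * star (v : B)) - algebraMap ℂ B (τ y)‖ ≤ ε
  cl : ∀ y : B, ‖av m (fun v => τ (y * star (v : B)) • (v : B))‖ ≤ ε * ‖y‖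
  cr : ∀ y : B, ‖av m (fun v => τ (y * (v : B)) • star (v : B))‖ ≤ ε * ‖y‖

theorem Good.mono {τ : B →ₗ[ℂ] ℂ} {Y Y' : Finset B} {ε ε' : ℝ} {m : Fm B} (h : Good τ Y ε m)
    (hY : Y' ⊆ Y) (hε : ε ≤ ε') : Good τ Y' ε' m :=
  ⟨fun y hy => (h.l y (hY hy)).trans hε, fun y hy => (h.r y (hY hy)).trans hε,
    fun y => (h.cl y).trans (by gcongr), fun y => (h.cr y).trans (by gcongr)⟩

/-- The filter of good families. -/
def flt (τ : B →ₗ[ℂ] ℂ) : Filter (Fm B) where
  sets := {S | ∃ (Y : Finset B) (ε : ℝ), 0 < ε ∧ ∀ m, Good τ Y ε m → m ∈ S}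
  univ_sets := ⟨∅, 1, one_pos, fun _ _ => trivial⟩
  sets_of_superset := by
    rintro S T ⟨Y, ε, h1, h2⟩ hST
    exact ⟨Y, ε, h1, fun m hm => hST (h2 m hm)⟩
  inter_sets := by
    classical
    rintro S T ⟨Y, ε, h1, h2⟩ ⟨Y', ε', h1', h2'⟩
    exact ⟨Y ∪ Y', min ε ε', lt_min h1 h1', fun m hm =>
      ⟨h2 m (hm.mono Finset.subset_union_left (min_le_left _ _)),
        h2' m (hm.mono Finset.subset_union_right (min_le_right _ _))⟩⟩

theorem mem_flt {τ : B →ₗ[ℂ] ℂ} {S : Set (Fm B)} :
    S ∈ flt τ ↔ ∃ (Y : Finset B) (ε : ℝ), 0 < ε ∧ ∀ m, Good τ Y ε m → m ∈ S := Iff.rfl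

theorem flt_neBot [PartialOrder B] [StarOrderedRing B] {τ : B →ₗ[ℂ] ℂ} (hτ : IsTracialState τ)
    (hd : HasDixmier τ) (ho : HasOrthA τ) : (flt τ).NeBot := by
  constructor
  intro h
  have h1 : (∅ : Set (Fm B)) ∈ flt τ := by
    rw [h]
    exact Filter.mem_bot
  obtain ⟨Y, ε, hε, h2⟩ := mem_flt.1 h1
  obtain ⟨k, g, h3, h4⟩ := proveA_fam1 B τ hτ hd ho (Y : Set B) Y.finite_toSet ε hε
  have e : ∀ (V : Type) [AddCommGroup V] [Module ℂ V] (F : unitary B → V),
      av (⟨k, g⟩ : Fm B) F = ((k + 1 : ℂ))⁻¹ • ∑ s, F (g s) := by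
    intro V _ _ F
    unfold av fav
    simp
  refine h2 ⟨k, g⟩ ⟨fun y hy => ?_, fun y hy => ?_, fun y => ?_, fun y => ?_⟩
  · rw [e]
    exact (h3 y hy).1
  · rw [e]
    exact (h3 y hy).2
  · rw [e]
    exact (h4 y).1
  · rw [e]
    exact (h4 y).2

theorem alg_mid (a b c : B) (ε : ℝ) (h1 : ‖a - c‖ ≤ ε) (h2 : ‖b - c‖ ≤ ε) :
    ‖(2 : ℂ)⁻¹ • (a + b) - c‖ ≤ ε := by
  have e : (2 : ℂ)⁻¹ • (a + b) - c = (2 : ℂ)⁻¹ • ((a - c) + (b - c)) := by
    have : c = (2 : ℂ)⁻¹ • (c + c) := by
      rw [← two_smul ℂ c, smul_smul, inv_mul_cancel₀ two_ne_zero, one_smul]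
    nth_rw 1 [this]
    rw [← smul_sub]
    congr 1
    abel
  rw [e, norm_smul, norm_inv, RCLike.norm_ofNat]
  have := norm_add_le (a - c) (b - c)
  linarith

theorem Good.md {τ : B →ₗ[ℂ] ℂ} {Y : Finset B} {ε : ℝ} {m m' : Fm B} (h : Good τ Y ε m)
    (h' : Good τ Y ε m') : Good τ Y ε (md m m') := by
  refine ⟨fun y hy => ?_, fun y hy => ?_, fun y => ?_, fun y => ?_⟩
  · rw [av_md]
    exact alg_mid _ _ _ _ (h.l y hy) (h'.l y hy)
  · rw [av_md]
    exact alg_mid _ _ _ _ (h.r y hy) (h'.r y hy)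
  · rw [av_md]
    have := alg_mid (av m (fun v => τ (y * star (v : B)) • (v : B)))
      (av m' (fun v => τ (y * star (v : B)) • (v : B))) (0 : B) (ε * ‖y‖)
      (by rw [sub_zero]; exact h.cl y) (by rw [sub_zero]; exact h'.cl y)
    rwa [sub_zero] at this
  · rw [av_md]
    have := alg_mid (av m (fun v => τ (y * (v : B)) • star (v : B)))
      (av m' (fun v => τ (y * (v : B)) • star (v : B))) (0 : B) (ε * ‖y‖)
      (by rw [sub_zero]; exact h.cr y) (by rw [sub_zero]; exact h'.cr y)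
    rwa [sub_zero] at this

/-- Linear map: multiplication on both sides. -/
def lr (a b : B) : B →ₗ[ℂ] B where
  toFun x := a * x * b
  map_add' x y := by rw [mul_add, add_mul]
  map_smul' c x := by simp

theorem lr_apply (a b x : B) : lr a b x = a * x * b := rfl

theorem norm_av_sub {V : Type} [NormedAddCommGroup V] [NormedSpace ℂ V] (m : Fm B)
    (F : unitary B → V) (c : V) (M : ℝ) (h : ∀ i, ‖F (m.2 i) - c‖ ≤ M) : ‖av m F - c‖ ≤ M := by
  have e : av m F - c = fav (Fin (m.1 + 1)) (fun i => F (m.2 i) - c) := by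
    rw [F804.fav_sub, F804.fav_const]
    rfl
  rw [e]
  exact F804.norm_fav_le _ _ _ h

theorem norm_av_le' {V : Type} [NormedAddCommGroup V] [NormedSpace ℂ V] (m : Fm B)
    (F : unitary B → V) (M : ℝ) (h : ∀ i, ‖F (m.2 i)‖ ≤ M) : ‖av m F‖ ≤ M :=
  F804.norm_fav_le _ _ _ h

theorem tau_conj {τ : B →ₗ[ℂ] ℂ} (hτ : IsTracialState τ) (u : unitary B) (y : B) :
    τ ((u : B) * y * star (u : B)) = τ y := by
  rw [hτ.comm, ← mul_assoc, F804.uu', one_mul]

theorem Good.pr {τ : B →ₗ[ℂ] ℂ} (hτ : IsTracialState τ) {Y Y' : Finset B} {ε : ℝ} {m v : Fm B}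
    (h : Good τ Y' ε m) (hY : Y ⊆ Y') (hY' : ∀ y ∈ Y, ∀ i, (v.2 i : B) * y * star (v.2 i : B) ∈ Y') :
    Good τ Y ε (pr m v) := by
  refine ⟨fun y hy => ?_, fun y hy => ?_, fun y => ?_, fun y => ?_⟩
  · rw [av_pr]
    apply norm_av_sub
    intro i
    set b : unitary B := v.2 i
    have e : av m (fun a => star ((a * b : unitary B) : B) * y * ((a * b : unitary B) : B)) =
        star (b : B) * av m (fun a => star (a : B) * y * (a : B)) * (b : B) := by
      rw [← lr_apply (star (b : B)) (b : B), ← av_lin]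
      congr 1
      funext a
      rw [lr_apply, Submonoid.coe_mul, star_mul]
      noncomm_ring
    rw [e]
    have e2 : star (b : B) * av m (fun a => star (a : B) * y * (a : B)) * (b : B) -
        algebraMap ℂ B (τ y) = star (b : B) * (av m (fun a => star (a : B) * y * (a : B)) -
          algebraMap ℂ B (τ y)) * (b : B) := by
      rw [mul_sub, sub_mul, F804.conj_alg']
    rw [e2]
    exact (F804.norm_conj_le' _ _).trans (h.l y (hY hy))
  · rw [av_pr]
    apply norm_av_sub
    intro i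
    set b : unitary B := v.2 i with hb
    have e : (fun a : unitary B => ((a * b : unitary B) : B) * y * star ((a * b : unitary B) : B)) =
        fun a : unitary B => (a : B) * ((b : B) * y * star (b : B)) * star (a : B) := by
      funext a
      rw [Submonoid.coe_mul, star_mul]
      noncomm_ring
    rw [e, ← tau_conj hτ b y]
    exact h.r _ (hY' y hy i)
  · rw [av_pr]
    apply norm_av_le'
    intro i
    set b : unitary B := v.2 i
    have e : av m (fun a => τ (y * star ((a * b : unitary B) : B)) • ((a * b : unitary B) : B)) =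
        av m (fun a => τ ((y * star (b : B)) * star (a : B)) • (a : B)) * (b : B) := by
      have := (av_lin m (lr (1 : B) (b : B))
        (fun a => τ ((y * star (b : B)) * star (a : B)) • (a : B))).symm
      rw [lr_apply, one_mul] at this
      rw [this]
      congr 1
      funext a
      rw [lr_apply, Submonoid.coe_mul, star_mul, one_mul, smul_mul_assoc, mul_assoc]
    rw [e, CStarRing.norm_mul_coe_unitary]
    have h1 := h.cl (y * star (b : B))
    rwa [← Unitary.coe_star, CStarRing.norm_mul_coe_unitary, Unitary.coe_star] at h1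
  · rw [av_pr]
    apply norm_av_le'
    intro i
    set b : unitary B := v.2 i
    have e : av m (fun a => τ (y * ((a * b : unitary B) : B)) • star ((a * b : unitary B) : B)) =
        star (b : B) * av m (fun a => τ (((b : B) * y) * (a : B)) • star (a : B)) := by
      have := (av_lin m (lr (star (b : B)) 1)
        (fun a => τ (((b : B) * y) * (a : B)) • star (a : B))).symm
      rw [lr_apply, mul_one] at this
      rw [this]
      congr 1
      funext a
      rw [lr_apply, Submonoid.coe_mul, star_mul, mul_one, mul_smul_comm, ← mul_assoc, hτ.comm,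
        ← mul_assoc]
    rw [e, ← Unitary.coe_star, CStarRing.norm_coe_unitary_mul]
    have h1 := h.cr ((b : B) * y)
    rwa [CStarRing.norm_coe_unitary_mul] at h1

end good

end Pool.Agent.Y968.D3
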