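import Mathlib
import Pool.Agent.Y968.D3.Fam

/-!
Dixmier means as limits of means of good families.
-/

set_option autoImplicit false

open scoped ComplexOrder InnerProductSpace ComplexConjugate Topology
open Finset Filter

noncomputable section

namespace Pool.Agent.Y968.D3

open H759R2.Kad H711R2.KG Y268.D3

section dix

variable {B : Type} [CStarAlgebra B]

theorem tau_star {τ : B →ₗ[ℂ] ℂ} (hτ : IsTracialState τ) (x : B) : τ (star x) = conj (τ x) :=
  Rec2.tracial_star hτ x

theorem tau_le [PartialOrder B] [StarOrderedRing B] {τ : B →ₗ[ℂ] ℂ} (hτ : IsTracialState τ)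
    (x : B) : ‖τ x‖ ≤ ‖x‖ := by
  have h0 := hτ.pos (x - algebraMap ℂ B (τ x))
  have e : star (x - algebraMap ℂ B (τ x)) * (x - algebraMap ℂ B (τ x)) =
      star x * x - (τ x) • star x - (conj (τ x)) • x + (conj (τ x) * τ x) • (1 : B) := by
    rw [star_sub, ← algebraMap_star_comm, Algebra.algebraMap_eq_smul_one,
      Algebra.algebraMap_eq_smul_one, sub_mul, mul_sub, mul_sub]
    simp only [mul_smul_comm, smul_mul_assoc, mul_one, one_mul, smul_smul, RCLike.star_def]
    rw [mul_comm (conj (τ x)) (τ x)]
    abel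
  rw [e, map_add, map_sub, map_sub, map_smul, map_smul, map_smul, hτ.one, tau_star hτ,
    smul_eq_mul, smul_eq_mul, smul_eq_mul, mul_one] at h0
  have h1 : τ (star x * x) - τ x * conj (τ x) - conj (τ x) * τ x + conj (τ x) * τ x =
      τ (star x * x) - ((‖τ x‖ ^ 2 : ℝ) : ℂ) := by
    rw [sub_add_cancel, Complex.mul_conj, Complex.normSq_eq_norm_sq]
  rw [h1, Complex.le_def] at h0
  have h2 := h0.1
  rw [Complex.sub_re, Complex.ofReal_re, Complex.zero_re] at h2
  have h3 := Col.state_bound τ hτ (star x * x) (star_mul_self_nonneg x)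
  rw [CStarRing.norm_star_mul_self] at h3
  have h4 := Complex.re_le_norm (τ (star x * x))
  have h5 : ‖τ x‖ ^ 2 ≤ ‖x‖ ^ 2 := by nlinarith
  exact le_of_sq_le_sq h5 (norm_nonneg _)

/-- The mean is the limit of the means of the families along `U`. -/
def IsLim (U : Ultrafilter (Fm B)) (E : Mean (unitary B)) : Prop :=
  ∀ (f : unitary B → ℂ) (C : ℝ), (∀ s, ‖f s‖ ≤ C) →
    Tendsto (fun m => av m f) (U : Filter (Fm B)) (𝓝 (E.E f))

theorem exists_isLim (h : S_mkmean) (U : Ultrafilter (Fm B)) : ∃ E, IsLim U E := by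
  obtain ⟨E, hE⟩ := h (unitary B) (Fm B) U mn
  refine ⟨E, fun f C hf => ?_⟩
  have := hE f C hf
  simpa only [mn_E] using this

theorem lim_eq {τ : B →ₗ[ℂ] ℂ} {U : Ultrafilter (Fm B)} (hU : (U : Filter (Fm B)) ≤ flt τ)
    {E : Mean (unitary B)} (hE : IsLim U E) (f : unitary B → ℂ) (C : ℝ) (hf : ∀ s, ‖f s‖ ≤ C)
    (c : ℂ) (K : ℝ) (Y : Finset B)
    (h : ∀ ε, 0 < ε → ∀ m, Good τ Y ε m → ‖av m f - c‖ ≤ K * ε) : E.E f = c := by
  refine tendsto_nhds_unique (hE f C hf) ?_
  rw [Metric.tendsto_nhds]
  intro ε hε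
  apply hU
  refine mem_flt.2 ⟨Y, ε / (2 * (|K| + 1)), by positivity, fun m hm => ?_⟩
  have h1 := h _ (by positivity) m hm
  change dist (av m f) c < ε
  rw [dist_eq_norm]
  refine h1.trans_lt ?_
  have h2 : K * (ε / (2 * (|K| + 1))) ≤ |K| * (ε / (2 * (|K| + 1))) := by
    gcongr
    exact le_abs_self K
  refine h2.trans_lt ?_
  rw [mul_div_assoc', div_lt_iff₀ (by positivity)]
  nlinarith [abs_nonneg K]

theorem av_clm (m : Fm B) (φ : B →L[ℂ] ℂ) (F : unitary B → B) :
    av m (fun v => φ (F v)) = φ (av m F) :=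
  av_lin m (φ : B →ₗ[ℂ] ℂ) F

theorem clm_alg (φ : B →L[ℂ] ℂ) (c : ℂ) : φ (algebraMap ℂ B c) = c * φ 1 := by
  rw [Algebra.algebraMap_eq_smul_one, map_smul, smul_eq_mul]

theorem bd_const {S : Type} (E : Mean S) {V : Type} [NormedAddCommGroup V] {y : S → V} {C : ℝ}
    (h : ∀ s, ‖y s‖ ≤ C) : 0 ≤ C := by
  by_contra hC
  have hS : IsEmpty S := ⟨fun s => by
    have := (norm_nonneg _).trans (h s)
    linarith⟩
  have h1 := E.bd (fun _ => (1 : ℂ)) 0 (fun s => (hS.false s).elim)
  rw [E.one] at h1
  simp at h1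
  linarith

theorem dix_of_lim [PartialOrder B] [StarOrderedRing B] {τ : B →ₗ[ℂ] ℂ} (hτ : IsTracialState τ)
    {U : Ultrafilter (Fm B)} (hU : (U : Filter (Fm B)) ≤ flt τ)
    {E : Mean (unitary B)} (hE : IsLim U E) : DixMean τ E := by
  refine ⟨fun φ y => ?_, fun φ y => ?_, fun S E' y φ C hy hφ => ?_, fun S E' y φ C hy hφ => ?_⟩
  · refine lim_eq hU hE _ (‖φ‖ * ‖y‖) (fun v => ?_) _ ‖φ‖ {y} fun ε _ m hm => ?_
    · exact (φ.le_opNorm _).trans (by gcongr; exact F804.norm_conj_le' v y)
    · rw [av_clm, ← clm_alg, ← map_sub]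
      refine (φ.le_opNorm _).trans ?_
      gcongr
      exact hm.l y (Finset.mem_singleton_self y)
  · refine lim_eq hU hE _ (‖φ‖ * ‖y‖) (fun v => ?_) _ ‖φ‖ {y} fun ε _ m hm => ?_
    · exact (φ.le_opNorm _).trans (by gcongr; exact F804.norm_conj_le v y)
    · rw [av_clm, ← clm_alg, ← map_sub]
      refine (φ.le_opNorm _).trans ?_
      gcongr
      exact hm.r y (Finset.mem_singleton_self y)
  · have hC : 0 ≤ C := bd_const E' hy
    refine lim_eq hU hE _ (C * C) (fun v => ?_) _ (C * C) ∅ fun ε hε m hm => ?_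
    · refine E'.bd _ _ fun s => ?_
      rw [norm_mul]
      refine mul_le_mul ?_ ?_ (norm_nonneg _) hC
      · refine (tau_le hτ _).trans ?_
        rw [← Unitary.coe_star, CStarRing.norm_mul_coe_unitary]
        exact hy s
      · refine (ContinuousLinearMap.le_opNorm _ _).trans ?_
        calc ‖φ s‖ * ‖(v : B)‖ ≤ C * 1 := by
              gcongr
              · exact hφ s
              · exact Rec2.norm_unitary_le v.2
          _ = C := mul_one C
    · rw [sub_zero, av_E]
      refine E'.bd _ _ fun s => ?_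
      have e : av m (fun v => τ (y s * star (v : B)) * φ s (v : B)) =
          φ s (av m (fun v => τ (y s * star (v : B)) • (v : B))) := by
        rw [← av_clm]
        congr 1
        funext v
        rw [map_smul, smul_eq_mul]
      rw [e]
      refine (ContinuousLinearMap.le_opNorm _ _).trans ?_
      have h1 := hm.cl (y s)
      calc ‖φ s‖ * ‖av m (fun v => τ (y s * star (v : B)) • (v : B))‖
          ≤ C * (ε * C) := by
            refine mul_le_mul (hφ s) (h1.trans ?_) (norm_nonneg _) hC
            gcongr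
            exact hy s
        _ = C * C * ε := by ring
  · have hC : 0 ≤ C := bd_const E' hy
    refine lim_eq hU hE _ (C * C) (fun v => ?_) _ (C * C) ∅ fun ε hε m hm => ?_
    · refine E'.bd _ _ fun s => ?_
      rw [norm_mul]
      refine mul_le_mul ?_ ?_ (norm_nonneg _) hC
      · refine (tau_le hτ _).trans ?_
        rw [CStarRing.norm_mul_coe_unitary]
        exact hy s
      · refine (ContinuousLinearMap.le_opNorm _ _).trans ?_
        calc ‖φ s‖ * ‖star (v : B)‖ ≤ C * 1 := by
              gcongr
              · exact hφ s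
              · exact Rec2.norm_unitary_le (star v).2
          _ = C := mul_one C
    · rw [sub_zero, av_E]
      refine E'.bd _ _ fun s => ?_
      have e : av m (fun v => τ (y s * (v : B)) * φ s (star (v : B))) =
          φ s (av m (fun v => τ (y s * (v : B)) • star (v : B))) := by
        rw [← av_clm]
        congr 1
        funext v
        rw [map_smul, smul_eq_mul]
      rw [e]
      refine (ContinuousLinearMap.le_opNorm _ _).trans ?_
      have h1 := hm.cr (y s)
      calc ‖φ s‖ * ‖av m (fun v => τ (y s * (v : B)) • star (v : B))‖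
          ≤ C * (ε * C) := by
            refine mul_le_mul (hφ s) (h1.trans ?_) (norm_nonneg _) hC
            gcongr
            exact hy s
        _ = C * C * ε := by ring

end dix

/-- Existence of Dixmier means. -/
theorem prove_dixmean : S_mkmean → S_dixmean := by
  intro h B _ _ _ τ hτ hd ho
  have := flt_neBot hτ hd ho
  obtain ⟨E, hE⟩ := exists_isLim h (Ultrafilter.of (flt τ))
  exact ⟨E, dix_of_lim hτ (Ultrafilter.of_le _) hE⟩

section sym

variable {B : Type} [CStarAlgebra B]

/-- Left and right multiplication, as continuous linear maps. -/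
def clr (a b : B) : B →L[ℂ] B :=
  (ContinuousLinearMap.mul ℂ B a).comp ((ContinuousLinearMap.mul ℂ B).flip b)

theorem clr_apply (a b x : B) : clr a b x = a * (x * b) := rfl

/-- Symmetrisation of a mean. -/
def sym {Γ : Type} [Fintype Γ] [Nonempty Γ] (E : Mean (unitary B)) (g : Γ → unitary B) :
    Mean (unitary B) := ((Mean.fin Γ).prod E).map (fun p => p.2 * g p.1)

theorem sym_E {Γ : Type} [Fintype Γ] [Nonempty Γ] (E : Mean (unitary B)) (g : Γ → unitary B)
    (f : unitary B → ℂ) : (sym E g).E f =
      (Mean.fin Γ).E (fun i => E.E (fun v => f (v * g i))) := rfl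

theorem sym_const {Γ : Type} [Fintype Γ] [Nonempty Γ] (E : Mean (unitary B)) (g : Γ → unitary B)
    (f : unitary B → ℂ) (c : ℂ) (h : ∀ i, E.E (fun v => f (v * g i)) = c) :
    (sym E g).E f = c := by
  rw [sym_E]
  have : (fun i => E.E (fun v => f (v * g i))) = fun _ => c := funext h
  rw [this, Mean.const]

theorem dix_sym {τ : B →ₗ[ℂ] ℂ} (hτ : IsTracialState τ) {Γ : Type} [Fintype Γ] [Nonempty Γ]
    {E : Mean (unitary B)} (hE : DixMean τ E) (g : Γ → unitary B) : DixMean τ (sym E g) := by
  refine ⟨fun φ y => ?_, fun φ y => ?_, fun S E' y φ C hy hφ => ?_, fun S E' y φ C hy hφ => ?_⟩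
  · refine sym_const E g _ _ fun i => ?_
    have h1 := hE.dixl (φ.comp (clr (star (g i : B)) (g i : B))) y
    have h2 : (φ.comp (clr (star (g i : B)) (g i : B))) 1 = φ 1 := by
      rw [ContinuousLinearMap.comp_apply, clr_apply, one_mul, F804.uu']
    rw [h2] at h1
    rw [← h1]
    congr 1
    funext v
    rw [ContinuousLinearMap.comp_apply, clr_apply, Submonoid.coe_mul, star_mul]
    congr 1
    noncomm_ring
  · refine sym_const E g _ _ fun i => ?_
    have h1 := hE.dixr φ ((g i : B) * y * star (g i : B))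
    rw [tau_conj hτ] at h1
    rw [← h1]
    congr 1
    funext v
    rw [Submonoid.coe_mul, star_mul]
    congr 1
    noncomm_ring
  · refine sym_const E g _ _ fun i => ?_
    have h1 := hE.orthl S E' (fun s => y s * star (g i : B))
      (fun s => (φ s).comp (clr 1 (g i : B))) C
      (fun s => by
        rw [← Unitary.coe_star, CStarRing.norm_mul_coe_unitary]
        exact hy s)
      (fun s => by
        have hC : 0 ≤ C := (norm_nonneg _).trans (hy s)
        refine ContinuousLinearMap.opNorm_le_bound _ hC fun x => ?_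
        rw [ContinuousLinearMap.comp_apply, clr_apply, one_mul]
        refine (ContinuousLinearMap.le_opNorm _ _).trans ?_
        rw [CStarRing.norm_mul_coe_unitary]
        gcongr
        exact hφ s)
    rw [← h1]
    congr 1
    funext v
    congr 1
    funext s
    rw [ContinuousLinearMap.comp_apply, clr_apply, one_mul, Submonoid.coe_mul, star_mul, mul_assoc]
  · refine sym_const E g _ _ fun i => ?_
    have h1 := hE.orthr S E' (fun s => (g i : B) * y s)
      (fun s => (φ s).comp (clr (star (g i : B)) 1)) C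
      (fun s => by
        rw [CStarRing.norm_coe_unitary_mul]
        exact hy s)
      (fun s => by
        have hC : 0 ≤ C := (norm_nonneg _).trans (hy s)
        refine ContinuousLinearMap.opNorm_le_bound _ hC fun x => ?_
        rw [ContinuousLinearMap.comp_apply, clr_apply, mul_one]
        refine (ContinuousLinearMap.le_opNorm _ _).trans ?_
        rw [← Unitary.coe_star, CStarRing.norm_coe_unitary_mul]
        gcongr
        exact hφ s)
    rw [← h1]
    congr 1
    funext v
    congr 1
    funext s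
    rw [ContinuousLinearMap.comp_apply, clr_apply, mul_one, Submonoid.coe_mul, star_mul,
      ← mul_assoc, hτ.comm, ← mul_assoc]

end sym

end Pool.Agent.Y968.D3
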