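import Mathlib
import Pool.Agent.Y968.D3.Dix

/-!
Collapse of forms.
-/

set_option autoImplicit false

open scoped ComplexOrder InnerProductSpace ComplexConjugate Topology
open Finset Filter

noncomputable section

namespace Pool.Agent.Y968.D3

open H759R2.Kad H711R2.KG Y268.D3

section col

variable {B : Type} [CStarAlgebra B] {K : Type} [NormedAddCommGroup K] [InnerProductSpace ℂ K]

/-- The averages of a form. -/
def rho (w : B →ₗ[ℂ] (K →L[ℂ] K)) (m : Fm B) (q : Form K) : Form K :=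
  av m (fun v => act w (v : B) q)

/-- Evaluation of forms. -/
def evl (ξ η : K) : Form K →ₗ[ℂ] ℂ where
  toFun q := q ξ η
  map_add' _ _ := rfl
  map_smul' _ _ := rfl

theorem av_apply (m : Fm B) (F : unitary B → Form K) (ξ η : K) :
    (av m F) ξ η = av m (fun v => F v ξ η) := (av_lin m (evl ξ η) F).symm

theorem rho_apply (w : B →ₗ[ℂ] (K →L[ℂ] K)) (m : Fm B) (q : Form K) (ξ η : K) :
    rho w m q ξ η = av m (fun v => q (w (v : B) ξ) (w (v : B) η)) := by
  unfold rho
  rw [av_apply]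
  rfl

theorem rho_cont (w : B →ₗ[ℂ] (K →L[ℂ] K)) (m : Fm B) : Continuous (rho w m) := by
  refine continuous_pi fun ξ => continuous_pi fun η => ?_
  simp only [rho_apply]
  unfold av fav
  have h : Continuous (fun q : Form K => ∑ i : Fin (m.1 + 1),
      q (w (m.2 i : B) ξ) (w (m.2 i : B) η)) :=
    continuous_finset_sum _ fun i _ => continuous_apply_apply _ _
  exact Continuous.const_smul h ((Fintype.card (Fin (m.1 + 1)) : ℂ)⁻¹)

omit [NormedAddCommGroup K] [InnerProductSpace ℂ K] in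
theorem av_mem {X : Set (Form K)} (hX : Convex ℝ X) (m : Fm B) (F : unitary B → Form K)
    (h : ∀ v, F v ∈ X) : av m F ∈ X := by
  have e : av m F = ∑ i : Fin (m.1 + 1), ((m.1 + 1 : ℝ)⁻¹) • F (m.2 i) := by
    unfold av fav
    rw [Finset.smul_sum]
    refine Finset.sum_congr rfl fun i _ => ?_
    funext ξ η
    simp only [Pi.smul_apply, Complex.real_smul, smul_eq_mul, Fintype.card_fin]
    push_cast
    rfl
  rw [e]
  refine hX.sum_mem (fun i _ => by positivity) ?_ (fun i _ => h _)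
  rw [Finset.sum_const, Finset.card_univ, Fintype.card_fin, nsmul_eq_mul]
  push_cast
  exact mul_inv_cancel₀ (by positivity)

theorem rho_aff (w : B →ₗ[ℂ] (K →L[ℂ] K)) (m : Fm B) (x y : Form K) (s t : ℝ) :
    rho w m (s • x + t • y) = s • rho w m x + t • rho w m y := by
  funext ξ η
  simp only [Pi.add_apply, Pi.smul_apply, Complex.real_smul, rho_apply]
  rw [av_add, ← smul_eq_mul, ← smul_eq_mul, ← av_smul, ← av_smul]
  rfl

theorem rho_pr {w : B →ₗ[ℂ] (K →L[ℂ] K)} (hw : IsHom w) (m v : Fm B) (x : Form K) :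
    rho w (pr m v) x = rho w v (rho w m x) := by
  funext ξ η
  rw [rho_apply, av_pr, rho_apply]
  congr 1
  funext b
  rw [rho_apply]
  congr 1
  funext a
  rw [Submonoid.coe_mul, hw.mul]
  rfl

theorem rho_md (w : B →ₗ[ℂ] (K →L[ℂ] K)) (m m' : Fm B) (x : Form K) :
    rho w (md m m') x = (1 / 2 : ℝ) • rho w m x + (1 / 2 : ℝ) • rho w m' x := by
  funext ξ η
  simp only [Pi.add_apply, Pi.smul_apply, Complex.real_smul, rho_apply]
  rw [av_md, smul_eq_mul]
  push_cast
  ring

theorem tend_pr {τ : B →ₗ[ℂ] ℂ} (hτ : IsTracialState τ) (v : Fm B) :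
    Tendsto (fun m => pr m v) (flt τ) (flt τ) := by
  classical
  intro S hS
  obtain ⟨Y, ε, hε, h⟩ := mem_flt.1 hS
  refine mem_flt.2 ⟨Y ∪ Finset.image₂ (fun y i => (v.2 i : B) * y * star (v.2 i : B)) Y univ, ε,
    hε, fun m hm => ?_⟩
  refine h _ (hm.pr hτ Finset.subset_union_left fun y hy i => ?_)
  exact Finset.mem_union_right _ (Finset.mem_image₂_of_mem hy (Finset.mem_univ i))

theorem rho_mk (w : B →ₗ[ℂ] (K →L[ℂ] K)) {Γ : Type} [Fintype Γ] [Nonempty Γ] (g : Γ → unitary B)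
    (q : Form K) (ξ η : K) :
    rho w (mk Γ g) q ξ η = fav Γ (fun i => q (w (g i : B) ξ) (w (g i : B) η)) := by
  rw [rho_apply, av_mk]

end col

/-- Collapse of forms. -/
theorem prove_collapse : S_abs → S_mkmean → S_real → S_cb → S_collapse := by
  intro habs hmk _ hcb B _ _ _ τ hτ hd ho K _ _ _ w hw γ hγ hwb Γ _ _ g hg
  obtain ⟨h1, h2, h3, h4, h5, -⟩ := hcb B K w hw γ hγ hwb
  have := flt_neBot hτ hd ho
  obtain ⟨X, x₀, U, hX1, hX2, hX3, hX4, hX5, hU, hX6⟩ := habs (Form K) (CB w) h1 h2 h3 (Fm B)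
    (rho w) (flt τ) (rho_cont w) (fun m x hx => av_mem h2 m _ fun v => h5 x hx v)
    (fun m x y s t _ => rho_aff w m x y s t)
    (fun v => ⟨fun m => pr m v, tend_pr hτ v, fun m x => rho_pr hw m v x⟩)
    (by
      intro s hs
      obtain ⟨Y, ε, hε, h⟩ := mem_flt.1 hs
      exact ⟨{m | Good τ Y ε m}, mem_flt.2 ⟨Y, ε, hε, fun m hm => hm⟩, h,
        fun m hm m' hm' => ⟨md m m', Good.md hm hm', fun x => rho_md w m m' x⟩⟩)
  obtain ⟨E, hE⟩ := exists_isLim hmk U
  have hdix : DixMean τ E := dix_of_lim hτ hU hE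
  -- the mean of a form in `X`
  have hEX : ∀ q ∈ X, ∀ ξ η, E.E (fun v => q (w (v : B) ξ) (w (v : B) η)) = x₀ ξ η := by
    intro q hq ξ η
    have hq' := h4 q (hX1 hq)
    have hbd : ∀ (v : unitary B) (ζ : K), ‖w (v : B) ζ‖ ≤ γ * ‖ζ‖ := by
      intro v ζ
      refine ((w (v : B)).le_opNorm ζ).trans ?_
      have h6 : ‖w (v : B)‖ ≤ γ := by
        refine (hwb _).trans ?_
        have := Rec2.norm_unitary_le v.2
        nlinarith
      gcongr
    refine tendsto_nhds_unique (hE _ (6 * γ ^ 2 * (γ * ‖ξ‖) * (γ * ‖η‖)) fun v => ?_) ?_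
    · refine (hq'.bd _ _).trans ?_
      gcongr
      · exact hbd v ξ
      · exact hbd v η
    · have h7 := hX6 q hq
      have h8 := (tendsto_pi_nhds.1 (tendsto_pi_nhds.1 h7 ξ)) η
      simpa only [rho_apply] using h8
  refine ⟨X, rho w (mk Γ g) x₀, sym E g, hX1, hX2, hX3, hX5 _ _ hX4, ?_, dix_sym hτ hdix g,
    ?_, ?_⟩
  · intro q hq v
    have h6 := hX5 (mk Unit (fun _ => v)) q hq
    have e : rho w (mk Unit (fun _ => v)) q = act w (v : B) q := by
      funext ξ η
      rw [rho_mk, F804.fav_const]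
      rfl
    rwa [e] at h6
  · intro q hq ξ η
    rw [sym_E, rho_mk, Mean.fin_E]
    unfold fav
    rw [smul_eq_mul]
    congr 1
    refine Finset.sum_congr rfl fun i _ => ?_
    change E.E (fun v => q (w ((v * g i : unitary B) : B) ξ) (w ((v * g i : unitary B) : B) η)) =
      x₀ (w (g i : B) ξ) (w (g i : B) η)
    rw [← hEX q hq]
    congr 1
    funext v
    rw [Submonoid.coe_mul, hw.mul]
    rfl
  · intro h
    obtain ⟨φ, hφ⟩ := hg.right h
    funext ξ η
    change rho w (mk Γ g) x₀ (w (g h : B) ξ) (w (g h : B) η) = _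
    rw [rho_mk, rho_mk]
    unfold fav
    congr 1
    rw [← Equiv.sum_comp φ (fun i => x₀ (w (g i : B) ξ) (w (g i : B) η))]
    refine Finset.sum_congr rfl fun i _ => ?_
    rw [hφ i, Submonoid.coe_mul, hw.mul]
    rfl

end Pool.Agent.Y968.D3
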