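import Mathlib
import Pool.Agent.H770R2.Kad.Net
import Pool.Agent.H770R2.Kad.Kap2

/-!
Nets in the bicommutant whose norms are at most the norm of the limit.
-/

set_option autoImplicit false

open scoped ComplexOrder InnerProductSpace

noncomputable section

namespace Pool.Agent.Y968.D3

open H759R2.Kad H770R2.Kad H770R2.Kad.Net

universe u v

section bic

variable {A : Type u} [CStarAlgebra A] [PartialOrder A] [StarOrderedRing A]
  {H : Type v} [NormedAddCommGroup H] [InnerProductSpace ℂ H] [CompleteSpace H]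

omit [PartialOrder A] [StarOrderedRing A] in
/-- The matrix with the entry `a` in place `(p, q)`. -/
def E (p q : Fin 2) (a : A) : CStarMatrix (Fin 2) (Fin 2) A :=
  CStarMatrix.ofMatrix (fun i j => if i = p ∧ j = q then a else 0)

theorem E_act (π : A →⋆ₐ[ℂ] (H →L[ℂ] H)) (p q : Fin 2) (a : A) (v : HH (Fin 2) H) :
    ampHom π (Fin 2) (E p q a) v = inj p (π a (v q)) := by
  ext i
  rw [ampHom_apply, amp_apply, inj_apply]
  have e : ∀ j, E p q a i j = if i = p ∧ j = q then a else 0 := fun j => rfl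
  simp only [e]
  rw [Finset.sum_eq_single q]
  · by_cases h : i = p
    · simp [h]
    · simp [h]
  · intro j _ hj
    simp [hj]
  · simp

theorem inj_self {ι : Type} [Fintype ι] [DecidableEq ι] (c : ι) (u : H) : (inj c u : HH ι H) c = u := by
  rw [inj_apply, if_pos rfl]

theorem norm_inj' (c : Fin 2) (u : H) : ‖(inj c u : HH (Fin 2) H)‖ = ‖u‖ := by
  have h : ‖(inj c u : HH (Fin 2) H)‖ ^ 2 = ‖u‖ ^ 2 := by
    rw [PiLp.norm_sq_eq_of_L2, Finset.sum_eq_single c]
    · rw [inj_self]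
    · intro i _ hi
      rw [inj_apply, if_neg hi, norm_zero]
      simp
    · simp
  exact (sq_eq_sq₀ (norm_nonneg _) (norm_nonneg _)).1 h

theorem norm_coord_le (v : HH (Fin 2) H) (i : Fin 2) : ‖v i‖ ≤ ‖v‖ := PiLp.norm_apply_le v i

/-- Operators commuting with all matrices over the range are diagonal. -/
theorem comm_diag (π : A →⋆ₐ[ℂ] (H →L[ℂ] H)) (y : HH (Fin 2) H →L[ℂ] HH (Fin 2) H)
    (hy : ∀ X, y * ampHom π (Fin 2) X = ampHom π (Fin 2) X * y) :
    ∃ y0 : H →L[ℂ] H, (∀ a, y0 * π a = π a * y0) ∧ ∀ (v : HH (Fin 2) H) i, (y v) i = y0 (v i) := by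
  have key : ∀ (p q : Fin 2) (a : A) (v : HH (Fin 2) H),
      y (inj p (π a (v q))) = inj p (π a ((y v) q)) := by
    intro p q a v
    have h := congrArg (fun T => T v) (hy (E p q a))
    simp only [mul_apply_eq_comp] at h
    rw [E_act, E_act] at h
    exact h
  let y0 : H →L[ℂ] H := LinearMap.mkContinuous
    { toFun := fun u => (y (inj (0 : Fin 2) u)) 0
      map_add' := fun u v => by
        rw [map_add, map_add]
        rfl
      map_smul' := fun c u => by
        rw [map_smul, map_smul]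
        rfl } ‖y‖ (fun u => by
      refine (norm_coord_le _ _).trans ((y.le_opNorm _).trans ?_)
      rw [norm_inj'])
  have hy0 : ∀ u, y0 u = (y (inj (0 : Fin 2) u)) 0 := fun u => rfl
  have h1 : ∀ (p : Fin 2) (u : H), y (inj p u) = inj p (y0 u) := by
    intro p u
    have h := key p 0 1 (inj (0 : Fin 2) u)
    rw [inj_self, map_one] at h
    exact h
  refine ⟨y0, fun a => ?_, fun v i => ?_⟩
  · ext u
    rw [mul_apply_eq_comp, mul_apply_eq_comp]
    have h := key 0 0 a (inj (0 : Fin 2) u)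
    rw [inj_self, h1, h1] at h
    have h2 := congrArg (fun w : HH (Fin 2) H => w 0) h
    simp only [inj_self] at h2
    exact h2
  · have h2 : y v = ∑ c, inj c (y0 (v c)) := by
      conv_lhs => rw [← sum_inj v]
      rw [map_sum]
      exact Finset.sum_congr rfl fun c _ => h1 c _
    have h3 : ∑ c, inj c (y0 (v c)) = (WithLp.toLp 2 fun c => y0 (v c) : HH (Fin 2) H) := by
      ext i
      simp only [Fin.sum_univ_two, PiLp.add_apply, inj_apply]
      fin_cases i <;> simp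
    rw [h2, h3]

theorem bic_opMat (π : A →⋆ₐ[ℂ] (H →L[ℂ] H)) (X : Fin 2 → Fin 2 → (H →L[ℂ] H))
    (hX : ∀ i j, Bic π (X i j)) : Bic (ampHom π (Fin 2)) (opMat X) := by
  intro y hy
  obtain ⟨y0, h1, h2⟩ := comm_diag π y hy
  ext v i
  rw [mul_apply_eq_comp, mul_apply_eq_comp, h2, opMat_apply, opMat_apply, map_sum]
  refine Finset.sum_congr rfl fun j _ => ?_
  have h3 := congrArg (fun T => T (v j)) (hX i j y0 h1)
  simp only [mul_apply_eq_comp] at h3
  rw [h3, h2]

/-- The self-adjoint matrix with the off-diagonal entries `x` and `x*`. -/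
def off (x : H →L[ℂ] H) : Fin 2 → Fin 2 → (H →L[ℂ] H) := ![![0, x], ![star x, 0]]

omit [PartialOrder A] [StarOrderedRing A] in
theorem bic_zero (π : A →⋆ₐ[ℂ] (H →L[ℂ] H)) : Bic π (0 : H →L[ℂ] H) := by
  intro y _
  rw [mul_zero, zero_mul]

theorem off_norm (x : H →L[ℂ] H) : ‖opMat (off x)‖ ≤ ‖x‖ := by
  refine ContinuousLinearMap.opNorm_le_bound _ (norm_nonneg _) fun v => ?_
  have h0 : (opMat (off x) v) 0 = x (v 1) := by
    rw [opMat_apply, Fin.sum_univ_two]
    simp [off]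
  have h1 : (opMat (off x) v) 1 = star x (v 0) := by
    rw [opMat_apply, Fin.sum_univ_two]
    simp [off]
  have h2 : ‖opMat (off x) v‖ ^ 2 ≤ (‖x‖ * ‖v‖) ^ 2 := by
    rw [PiLp.norm_sq_eq_of_L2, Fin.sum_univ_two, h0, h1, mul_pow,
      PiLp.norm_sq_eq_of_L2 _ v, Fin.sum_univ_two]
    have h3 : ‖x (v 1)‖ ^ 2 ≤ ‖x‖ ^ 2 * ‖v 1‖ ^ 2 := by
      rw [← mul_pow]
      exact pow_le_pow_left₀ (norm_nonneg _) (x.le_opNorm _) 2
    have h4 : ‖(star x) (v 0)‖ ^ 2 ≤ ‖x‖ ^ 2 * ‖v 0‖ ^ 2 := by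
      rw [← mul_pow]
      refine pow_le_pow_left₀ (norm_nonneg _) (((star x).le_opNorm _).trans ?_) 2
      rw [norm_star]
    linarith
  exact le_of_sq_le_sq h2 (by positivity)

theorem off_sa (x : H →L[ℂ] H) : IsSelfAdjoint (opMat (off x)) := by
  rw [isSelfAdjoint_iff, opMat_star]
  congr 1
  funext i j
  fin_cases i <;> fin_cases j <;> simp [off]

theorem one_step1 (h1 : G_kap.{u, v}) (π : A →⋆ₐ[ℂ] (H →L[ℂ] H)) {x : H →L[ℂ] H}
    (hx : Bic π x) (F : Finset H) {δ : ℝ} (hδ : 0 < δ) :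
    ∃ a : A, ‖a‖ ≤ ‖x‖ ∧ ∀ ζ ∈ F, ‖π a ζ - x ζ‖ < δ ∧ ‖π (star a) ζ - star x ζ‖ < δ := by
  classical
  have hb : Bic (ampHom π (Fin 2)) (opMat (off x)) := by
    refine bic_opMat π _ fun i j => ?_
    fin_cases i <;> fin_cases j
    · exact bic_zero π
    · exact hx
    · exact hx.star
    · exact bic_zero π
  obtain ⟨a, ha1, ha2, ha3⟩ := one_step h1 (ampHom π (Fin 2)) hb (off_sa x)
    ((F.image fun ζ => (inj (0 : Fin 2) ζ : HH (Fin 2) H)) ∪
      F.image fun ζ => (inj (1 : Fin 2) ζ : HH (Fin 2) H)) hδ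
  have hstar : a 1 0 = star (a 0 1) := by
    have h := congrArg (fun b : CStarMatrix (Fin 2) (Fin 2) A => b 1 0) ha1.star_eq
    simp only [CStarMatrix.star_apply] at h
    exact h.symm
  refine ⟨a 0 1, ?_, fun ζ hζ => ⟨?_, ?_⟩⟩
  · exact CStarMatrix.norm_entry_le_norm.trans (ha2.trans (off_norm x))
  · refine lt_of_le_of_lt ?_ (ha3 (inj 1 ζ)
      (Finset.mem_union_right _ (Finset.mem_image_of_mem _ hζ)))
    refine le_trans (le_of_eq ?_) (norm_coord_le _ 0)
    have e1 : (ampHom π (Fin 2) a (inj 1 ζ)) 0 = π (a 0 1) ζ := by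
      rw [ampHom_apply, amp_apply, Fin.sum_univ_two]
      simp [inj_apply]
    have e2 : (opMat (off x) (inj 1 ζ)) 0 = x ζ := by
      rw [opMat_apply, Fin.sum_univ_two]
      simp [inj_apply, off]
    rw [PiLp.sub_apply, e1, e2]
  · refine lt_of_le_of_lt ?_ (ha3 (inj 0 ζ)
      (Finset.mem_union_left _ (Finset.mem_image_of_mem _ hζ)))
    refine le_trans (le_of_eq ?_) (norm_coord_le _ 1)
    have e1 : (ampHom π (Fin 2) a (inj 0 ζ)) 1 = π (a 1 0) ζ := by
      rw [ampHom_apply, amp_apply, Fin.sum_univ_two]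
      simp [inj_apply]
    have e2 : (opMat (off x) (inj 0 ζ)) 1 = star x ζ := by
      rw [opMat_apply, Fin.sum_univ_two]
      simp [inj_apply, off]
    rw [PiLp.sub_apply, e1, e2, hstar]

end bic

/-- Every element of the bicommutant is the limit of a net with norms at most its norm. -/
theorem net1 (h1 : G_kap.{u, v}) (A : Type u) [CStarAlgebra A] (H : Type v)
    [NormedAddCommGroup H] [InnerProductSpace ℂ H] [CompleteSpace H]
    (π : A →⋆ₐ[ℂ] (H →L[ℂ] H)) (x : H →L[ℂ] H)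
    (hx : ∀ y : H →L[ℂ] H, (∀ a, y * π a = π a * y) → y * x = x * y) :
    ∃ a : Ix H → A, Conv π a x ∧ ∀ i, ‖a i‖ ≤ 1 * ‖x‖ := by
  let i1 : PartialOrder A := CStarAlgebra.spectralOrder A
  have i2 : StarOrderedRing A := CStarAlgebra.spectralOrderedRing A
  have h2 : ∀ i : Ix H, ∃ a : A, ‖a‖ ≤ ‖x‖ ∧
      ∀ ζ ∈ i.1, ‖π a ζ - x ζ‖ < 1 / ((i.2 : ℝ) + 1) ∧
        ‖π (star a) ζ - star x ζ‖ < 1 / ((i.2 : ℝ) + 1) := fun i =>
    one_step1 h1 π hx i.1 (by positivity)
  choose a ha1 ha2 using h2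
  have hev : ∀ (ζ : H) (ε : ℝ), 0 < ε → ∀ᶠ i : Ix H in Filter.atTop,
      ‖π (a i) ζ - x ζ‖ < ε ∧ ‖π (star (a i)) ζ - star x ζ‖ < ε := by
    intro ζ ε hε
    obtain ⟨N, hN⟩ := exists_nat_one_div_lt hε
    refine (Filter.eventually_ge_atTop ((({ζ} : Finset H), N) : Ix H)).mono fun i hi => ?_
    have h3 : ζ ∈ i.1 := hi.1 (Finset.mem_singleton_self ζ)
    have h4 : N ≤ i.2 := hi.2
    have h5 : (N : ℝ) ≤ i.2 := by exact_mod_cast h4
    have h6 : 1 / ((i.2 : ℝ) + 1) < ε :=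
      lt_of_le_of_lt (one_div_le_one_div_of_le (by positivity) (by linarith)) hN
    exact ⟨(ha2 i ζ h3).1.trans h6, (ha2 i ζ h3).2.trans h6⟩
  refine ⟨a, ⟨⟨‖x‖, ha1⟩, fun ζ => ?_, fun ζ => ?_⟩, fun i => by rw [one_mul]; exact ha1 i⟩
  · rw [Metric.tendsto_nhds]
    intro ε hε
    filter_upwards [hev ζ ε hε] with i hi
    rw [dist_eq_norm]
    exact hi.1
  · rw [Metric.tendsto_nhds]
    intro ε hε
    filter_upwards [hev ζ ε hε] with i hi
    rw [dist_eq_norm]
    exact hi.2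

end Pool.Agent.Y968.D3
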