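import Mathlib
import Pool.Agent.Y268.Kad.Top
import Pool.Agent.Y968.D3.Net1

/-!
Extension of a bounded homomorphism to the generated von Neumann algebra, with the same bound.
-/

set_option autoImplicit false

open scoped ComplexOrder InnerProductSpace
open Filter

noncomputable section

namespace Pool.Agent.Y968.D3

open H759R2.Kad H770R2.Kad

open AXEXT AHEXT in
theorem prove_ext1 : Y268.Kad.Ext 1 := by
  classical
  intro A _ H _ _ _ w hw c hc hwc L _ _ _ π hctrl
  -- the von Neumann algebra
  have hT : star (Set.centralizer (Set.range π)) = Set.centralizer (Set.range π) := by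
    have h4 : ∀ y, y ∈ Set.centralizer (Set.range π) → star y ∈ Set.centralizer (Set.range π) := by
      intro y hy
      rw [Set.mem_centralizer_iff] at hy ⊢
      rintro _ ⟨a, rfl⟩
      have h5 := hy (π (star a)) ⟨star a, rfl⟩
      have h6 := congrArg star h5
      rw [star_mul, star_mul, map_star, star_star] at h6
      exact h6.symm
    ext y
    rw [Set.mem_star]
    constructor
    · intro hy
      have := h4 _ hy
      rwa [star_star] at this
    · exact h4 y
  obtain ⟨M, hMmem⟩ : ∃ M : VonNeumannAlgebra L, ∀ x : L →L[ℂ] L, x ∈ M.toStarSubalgebra ↔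
      ∀ y : L →L[ℂ] L, (∀ a, y * π a = π a * y) → y * x = x * y := by
    refine ⟨{ toStarSubalgebra := StarSubalgebra.centralizer ℂ (Set.centralizer (Set.range π))
              centralizer_centralizer' := by
                change Set.centralizer (Set.centralizer (Set.centralizer
                  (Set.centralizer (Set.range π) ∪ star (Set.centralizer (Set.range π))))) =
                  Set.centralizer
                    (Set.centralizer (Set.range π) ∪ star (Set.centralizer (Set.range π)))
                exact Set.centralizer_centralizer_centralizer _ }, ?_⟩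
    intro x
    change x ∈ Set.centralizer (Set.centralizer (Set.range π) ∪
      star (Set.centralizer (Set.range π))) ↔ _
    rw [hT, Set.union_self, Set.mem_centralizer_iff]
    constructor
    · intro h y hy
      refine h y ?_
      rw [Set.mem_centralizer_iff]
      rintro _ ⟨a, rfl⟩
      exact (hy a).symm
    · intro h y hy
      refine h y (fun a => ?_)
      rw [Set.mem_centralizer_iff] at hy
      exact (hy (π a) ⟨a, rfl⟩).symm
  -- nets and limits
  have hnet : ∀ x : M.toStarSubalgebra, ∃ a : Ix L → A, Conv π a (x : L →L[ℂ] L) ∧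
      ∀ i, ‖a i‖ ≤ 1 * ‖(x : L →L[ℂ] L)‖ := fun x =>
    net1 prove_kap A L π x ((hMmem x).mp x.2)
  choose net hnet1 hnet2 using hnet
  have hbd : ∀ (x : M.toStarSubalgebra) (i : Ix L), ‖w (net x i)‖ ≤ 1 * c * ‖(x : L →L[ℂ] L)‖ := by
    intro x i
    calc ‖w (net x i)‖ ≤ c * ‖net x i‖ := hwc _
      _ ≤ c * (1 * ‖(x : L →L[ℂ] L)‖) := mul_le_mul_of_nonneg_left (hnet2 x i) hc
      _ = 1 * c * ‖(x : L →L[ℂ] L)‖ := by ring
  have hlim : ∀ (x : M.toStarSubalgebra) (ξ : H), ∃ η : H,
      Tendsto (fun i => w (net x i) ξ) atTop (nhds η) := fun x ξ => exists_lim hctrl (hnet1 x) ξ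
  choose E hE using hlim
  have key : ∀ (x : M.toStarSubalgebra) (b : Ix L → A), Conv π b (x : L →L[ℂ] L) → ∀ ξ : H,
      Tendsto (fun i => w (b i) ξ) atTop (nhds (E x ξ)) := by
    intro x b hb ξ
    have hcv : Conv π (fun i => b i + (-1 : ℂ) • net x i) 0 := by
      have := conv_add hb (conv_smul (-1) (hnet1 x))
      rwa [neg_one_smul, add_neg_cancel] at this
    have h4 := null hctrl hcv ξ
    have h5 := h4.add (hE x ξ)
    rw [zero_add] at h5
    refine h5.congr (fun i => ?_)
    rw [map_add, map_smul, add_apply, smul_apply]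
    module
  have uniq : ∀ (x : M.toStarSubalgebra) (ξ η : H) (b : Ix L → A),
      Conv π b (x : L →L[ℂ] L) → Tendsto (fun i => w (b i) ξ) atTop (nhds η) → E x ξ = η := by
    intro x ξ η b hb hF
    exact tendsto_nhds_unique (key x b hb ξ) hF
  have hEbd : ∀ (x : M.toStarSubalgebra) (ξ : H), ‖E x ξ‖ ≤ 1 * c * ‖(x : L →L[ℂ] L)‖ * ‖ξ‖ := by
    intro x ξ
    refine le_of_tendsto (hE x ξ).norm (Eventually.of_forall fun i => ?_)
    exact ((w (net x i)).le_opNorm ξ).trans (mul_le_mul_of_nonneg_right (hbd x i) (norm_nonneg _))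
  let E1 : M.toStarSubalgebra → (H →L[ℂ] H) := fun x =>
    LinearMap.mkContinuous
      { toFun := E x
        map_add' := by
          intro ξ η
          refine uniq x _ _ (net x) (hnet1 x) ?_
          refine ((hE x ξ).add (hE x η)).congr (fun i => ?_)
          rw [map_add]
        map_smul' := by
          intro t ξ
          refine uniq x _ _ (net x) (hnet1 x) ?_
          refine ((hE x ξ).const_smul t).congr (fun i => ?_)
          rw [map_smul] } (1 * c * ‖(x : L →L[ℂ] L)‖) (hEbd x)
  have hE1 : ∀ x ξ, E1 x ξ = E x ξ := fun x ξ => rfl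
  let E' : M.toStarSubalgebra →ₗ[ℂ] (H →L[ℂ] H) :=
    { toFun := E1
      map_add' := by
        intro x y
        ext ξ
        rw [hE1, add_apply, hE1, hE1]
        refine uniq (x + y) _ _ _ (conv_add (hnet1 x) (hnet1 y)) ?_
        refine ((hE x ξ).add (hE y ξ)).congr (fun i => ?_)
        rw [map_add, add_apply]
      map_smul' := by
        intro t x
        ext ξ
        rw [RingHom.id_apply, smul_apply, hE1, hE1]
        refine uniq (t • x) _ _ _ (conv_smul t (hnet1 x)) ?_
        refine ((hE x ξ).const_smul t).congr (fun i => ?_)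
        rw [map_smul, smul_apply] }
  have hE' : ∀ x ξ, E' x ξ = E x ξ := fun x ξ => rfl
  have hmem : ∀ a, π a ∈ M.toStarSubalgebra := by
    intro a
    rw [hMmem]
    intro y hy
    exact hy a
  refine ⟨M, StarAlgHom.codRestrict π M.toStarSubalgebra hmem, E', ⟨?_, ?_⟩, ?_, ?_⟩
  · intro x y
    ext ξ
    rw [mul_apply_eq_comp, hE', hE', hE']
    refine uniq (x * y) _ _ _ (conv_mul (hnet1 x) (hnet1 y)) ?_
    have h4 := tendsto_app (T := fun i => w (net x i)) (x := E' x) (hbd x) (fun ζ => hE x ζ)
      (hE y ξ)
    refine h4.congr (fun i => ?_)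
    rw [hw.mul]
    rfl
  · ext ξ
    rw [hE']
    refine uniq 1 _ _ (fun _ => 1) ?_ ?_
    · have := conv_const (π := π) (1 : A)
      rw [map_one] at this
      exact this
    · rw [hw.one]
      exact tendsto_const_nhds
  · intro x
    exact LinearMap.mkContinuous_norm_le _ (by positivity) (hEbd x)
  · intro a
    ext ξ
    rw [hE']
    exact uniq (StarAlgHom.codRestrict π M.toStarSubalgebra hmem a) _ _ (fun _ => a)
      (conv_const a) tendsto_const_nhds

end Pool.Agent.Y968.D3
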